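import Mathlib
import Pool.Agent.N781.E.Fin

/-!
# An inverse theorem for correlations of multiplicative functions at FIXED shifts, at all but few
scales, uniform in the functions

If the correlations `∑_{n ≤ y} f_1(a_1 n + b_1) ⋯ f_k(a_k n + b_k)` are not small at some `y` in many
of the intervals `[N / 2 ^ (i + 1), N / 2 ^ i]`, then the product `f_1 ⋯ f_k` is close to a twisted Dirichlet character
of bounded modulus at all primes but a set of bounded mass.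
-/

open Finset

namespace Pool.Agent.Results.MP_f3f922_nt.FixedShiftsInverse

/-- Multiplicative functions with values in the closed unit disc. -/
def IsMult (f : ℕ → ℂ) : Prop :=
  (∀ n, ‖f n‖ ≤ 1) ∧ ∀ m n : ℕ, m.Coprime n → f (m * n) = f m * f n

/-- The correlation sum `∑_{n ≤ y} ∏ j, f j |a j n + b j|`. -/
noncomputable def corr {k : ℕ} (a : Fin k → ℕ) (b : Fin k → ℤ) (f : Fin k → ℕ → ℂ) (y : ℕ) : ℂ :=
  ∑ n ∈ Icc 1 y, ∏ j, f j ((a j : ℤ) * n + b j).natAbs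

open Classical in
/-- The exceptional scales: the `1 ≤ i ≤ J` such that the correlation sum up to `y` is larger than
`ε y` for some `y` in `[N / 2 ^ (i + 1), N / 2 ^ i]`. -/
noncomputable def exceptional {k : ℕ} (a : Fin k → ℕ) (b : Fin k → ℤ) (f : Fin k → ℕ → ℂ) (ε : ℝ)
    (J N : ℕ) : Finset ℕ :=
  (Icc 1 J).filter (fun i => ∃ y : ℕ, N / 2 ^ (i + 1) ≤ y ∧ y ≤ N / 2 ^ i ∧ ε * y < ‖corr a b f y‖)

open Classical in
/-- The sum of `1 / p` over the primes `p ≤ T` with `|g(p) - χ(p) p ^ (i v)| > η`. -/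
noncomputable def farMass {q : ℕ} (g : ℕ → ℂ) (χ : DirichletCharacter ℂ q) (v η : ℝ) (T : ℕ) : ℝ :=
  ∑ p ∈ (Finset.Icc 1 T).filter (fun p : ℕ => p.Prime ∧
    η < ‖g p - χ (p : ZMod q) * (p : ℂ) ^ (Complex.I * (v : ℂ))‖), 1 / (p : ℝ)

/-- The square of the pretentious distance `𝔻(g, χ; T)`. -/
noncomputable def distSq {q : ℕ} (g : ℕ → ℂ) (χ : DirichletCharacter ℂ q) (T : ℕ) : ℝ :=
  ∑ p ∈ (Finset.Icc 1 T).filter Nat.Prime,
    (1 - (g p * (starRingEnd ℂ) (χ (p : ZMod q))).re) / (p : ℝ)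

/-- Let `a_j ≥ 1`, `b_j` be integers, `ε > 0`, and let `S` be a finite set of complex numbers. If
`N` is large and the exceptional scales `i ≤ J` have a sum of `1 / i` larger than `C`, then the
product `g = f_1 ⋯ f_k` is within `η` of `χ(p) p ^ (i v)`, `χ` modulo `q ≤ Q`, `|v| ≤ U`, at all the
primes `p ≤ T` outside a set of mass at most `M`; moreover `v = 0` and `𝔻(g, χ; T) ^ 2 ≤ M` if the
values of `g` at the primes lie in `S`. Here `Q` depends on `a, b, S, ε`, and `U, M` depend on `η`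
too, and `C` depends on `T` too, but `C` does not depend on `J`, `N` and the functions. -/
theorem result : ∀ (k : ℕ) (a : Fin k → ℕ) (b : Fin k → ℤ), 0 < k → (∀ j, 1 ≤ a j) →
    ∀ S : Set ℂ, S.Finite → ∀ ε : ℝ, 0 < ε →
    ∃ Q : ℕ, ∀ η : ℝ, 0 < η → ∃ U M : ℝ, ∀ T : ℕ, ∃ C : ℝ, ∀ J : ℕ, ∃ N₀ : ℕ, ∀ N : ℕ, N₀ ≤ N →
      ∀ f : Fin k → ℕ → ℂ, (∀ i, IsMult (f i)) →
      C < ∑ i ∈ exceptional a b f ε J N, 1 / (i : ℝ) →
      ∃ (q : ℕ) (χ : DirichletCharacter ℂ q) (v : ℝ), 1 ≤ q ∧ q ≤ Q ∧ |v| ≤ U ∧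
        farMass (fun p => ∏ i, f i p) χ v η T ≤ M ∧
        ((∀ p : ℕ, p.Prime → ∏ i, f i p ∈ S) →
          v = 0 ∧ distSq (fun p => ∏ i, f i p) χ T ≤ M) := by
  intro k a b hk ha S hS ε hε
  exact Pool.Agent.N781.E.inverse_exc k hk a b ha S hS ε hε

end Pool.Agent.Results.MP_f3f922_nt.FixedShiftsInverse
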