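import Mathlib
import Pool.Agent.N788.QP.Fin

/-!
# An inverse theorem for correlations of multiplicative functions along almost all tuples of primes
and rough numbers, uniform in the functions

The parameters of the linear forms run over the points at which given affine functions of them are
prime or have no small prime factors; they may grow arbitrarily slowly. If the correlations are not
small for most of these points, then for every cluster of forms the product of the functions of the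
cluster is close to a twisted Dirichlet character of bounded modulus at all primes but a set of
bounded mass. With an additive twist the same holds for the product of all functions, and the twist
lies in a major arc.

From the team: the transference theorem in several parameters for arbitrary bounded functions
(`Pool.Agent.N675.Q`, project Q of helper675), the cluster theorem and the theorem on additive twists
(`Pool.Agent.N675.M`, project M of helper675), the treatment of products with finitely many values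
(`Pool.Agent.N781.FV`, helper781). From Mathlib: `ArithmeticFunction.vonMangoldt`: the von Mangoldt
function; `Fintype.piFinset S`: the families `d` with `d j ∈ S j` for all `j`; `m.natAbs`: the
absolute value of the integer `m`.
-/

open Finset

namespace Pool.Agent.Results.MP_f3f922_nt.InversePrimeTuples

/-- Multiplicative functions with values in the closed unit disc. -/
def IsMult (f : ℕ → ℂ) : Prop :=
  (∀ n, ‖f n‖ ≤ 1) ∧ ∀ m n : ℕ, m.Coprime n → f (m * n) = f m * f n

open Classical in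
/-- The weight of the integer `m`: the von Mangoldt function of `|m|`, plus `log D` if no prime
`p ≤ D ^ δ` divides `m`. -/
noncomputable def weight (δ : ℝ) (D : ℕ) (m : ℤ) : ℝ :=
  (if ∀ p : ℕ, p.Prime → (p : ℝ) ≤ (D : ℝ) ^ δ → ¬ (p : ℤ) ∣ m then Real.log D else 0)
    + ArithmeticFunction.vonMangoldt m.natAbs

/-- No two of the affine functions `∑ u, l j u * z u + c j` are proportional. -/
def NonProp {r t : ℕ} (l : Fin t → Fin r → ℤ) (c : Fin t → ℤ) : Prop :=
  ∀ j j', j ≠ j' → (∃ u u', l j u * l j' u' ≠ l j' u * l j u') ∨ ∃ u, l j u * c j' ≠ l j' u * c j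

/-- The sum of `|G y|` over the points `y` with `1 ≤ y g u ≤ D g`, weighted by the product of the
weights of the values at `y` of the affine functions `∑ u, l g j u * y g u + c g j`. -/
noncomputable def weighted {s r : ℕ} (t : Fin s → ℕ) (l : ∀ g, Fin (t g) → Fin r → ℤ)
    (c : ∀ g, Fin (t g) → ℤ) (δ : ℝ) (D : Fin s → ℕ) (G : (Fin s → Fin r → ℤ) → ℂ) : ℝ :=
  ∑ y ∈ Fintype.piFinset (fun g => Fintype.piFinset fun _ => Icc (1 : ℤ) (D g)),
    (∏ g, ∏ j, weight δ (D g) (∑ u, l g j u * y g u + c g j)) * ‖G y‖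

/-- The correlation sum `∑_{n ≤ x} ∏ i, f i |a i n + ∑ g, ∑ u, L i g u y g u|`. -/
noncomputable def corr {s r k : ℕ} (a : Fin k → ℤ) (L : Fin k → Fin s → Fin r → ℤ)
    (f : Fin k → ℕ → ℂ) (x : ℕ) (y : Fin s → Fin r → ℤ) : ℂ :=
  ∑ n ∈ Icc (1 : ℤ) x, ∏ i, f i (a i * n + ∑ g, ∑ u, L i g u * y g u).natAbs

/-- The correlation sum with the additional factor `exp (2 π i γ n)`. -/
noncomputable def twisted {s r k : ℕ} (a : Fin k → ℤ) (L : Fin k → Fin s → Fin r → ℤ)
    (f : Fin k → ℕ → ℂ) (γ : ℝ) (x : ℕ) (y : Fin s → Fin r → ℤ) : ℂ :=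
  ∑ n ∈ Icc (1 : ℤ) x, Complex.exp (Complex.I * ((2 * Real.pi * (γ * n) : ℝ) : ℂ)) *
    ∏ i, f i (a i * n + ∑ g, ∑ u, L i g u * y g u).natAbs

/-- The cluster of the form `i₀`: the forms whose vector of coefficients at `n` and at the
parameters of the long blocks `g ∈ lg` is proportional to the one of the form `i₀`. Without long
blocks it consists of all forms. -/
def cluster {s r k : ℕ} (a : Fin k → ℤ) (L : Fin k → Fin s → Fin r → ℤ) (lg : Finset (Fin s))
    (i₀ : Fin k) : Finset (Fin k) :=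
  univ.filter fun i => ∀ g ∈ lg, ∀ u, a i * L i₀ g u = a i₀ * L i g u

open Classical in
/-- The sum of `1 / p` over the primes `p ≤ T` with `|g(p) - χ(p) p ^ (i v)| > η`. -/
noncomputable def farMass {q : ℕ} (g : ℕ → ℂ) (χ : DirichletCharacter ℂ q) (v η : ℝ) (T : ℕ) : ℝ :=
  ∑ p ∈ (Finset.Icc 1 T).filter (fun p : ℕ => p.Prime ∧
    η < ‖g p - χ (p : ZMod q) * (p : ℂ) ^ (Complex.I * (v : ℂ))‖), 1 / (p : ℝ)

/-- The square of the pretentious distance `𝔻(g, χ; T)`. -/
noncomputable def distSq {q : ℕ} (g : ℕ → ℂ) (χ : DirichletCharacter ℂ q) (T : ℕ) : ℝ :=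
  ∑ p ∈ (Finset.Icc 1 T).filter Nat.Prime,
    (1 - (g p * (starRingEnd ℂ) (χ (p : ZMod q))).re) / (p : ℝ)

/-- long blocks as a boolean function -/
def lgb {s : ℕ} (lg : Finset (Fin s)) (g : Fin s) : Bool := decide (g ∈ lg)

lemma cls_eq {s r k : ℕ} (a : Fin k → ℤ) (L : Fin k → Fin s → Fin r → ℤ) (lg : Finset (Fin s))
    (i₀ : Fin k) : Pool.Agent.N675.M.cls a (Pool.Agent.N788.QP.fl L)
      (fun q : Fin s × Fin r => lgb lg q.1) i₀ = cluster a L lg i₀ := by
  ext i
  rw [Pool.Agent.N675.M.mem_cls]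
  unfold cluster
  rw [Finset.mem_filter]
  constructor
  · intro h
    exact ⟨Finset.mem_univ _, fun g hg u => h (g, u) (by simpa [lgb] using hg)⟩
  · rintro ⟨-, h⟩ q hq
    exact h q.1 (by simpa [lgb] using hq) q.2

/-- Let `a i n + ∑ g, ∑ u, L i g u * y g u`, `i < k`, be integer linear forms in `n` and in the
parameters `y g u` (`s` blocks of `r` parameters), `a i ≠ 0`. For every block let
`∑ u, l g j u * z u + c g j`, `j < t g`, be at least one affine function of the parameters of the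
block, not constant and no two proportional. Let `S` be a finite set of complex numbers, `δ > 0` and
`ε > 0`. Let `x ≥ K` and `K ≤ D g ≤ R x` for all `g`.
(1) Let `lg` be a set of blocks, called long, with `x ≤ R (D g)` for `g ∈ lg`. If the weighted sum of
the absolute values of the correlation sums is larger than `ε x ∏ (D g) ^ r`, then, for the cluster
of every form `i₀`, the product of the functions of the cluster is within `η` of `χ(p) p ^ (i v)`,
`χ` modulo `q ≤ Q`, `|v| ≤ U`, at all the primes `p ≤ T` outside a set of mass at most `M`; moreover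
`v = 0` and `𝔻(·, χ; T) ^ 2 ≤ M` for this product if its values at the primes lie in `S`.
(2) If the weighted sum is larger than `ε x ∏ (D g) ^ r` for the correlation sums twisted by
`exp (2 π i γ n)`, then `q' γ` is within `Q / x` of an integer for some `1 ≤ q' ≤ Q`, and the
conclusion of (1) holds for the product of all the functions. -/
theorem result : ∀ (k s r R : ℕ) (t : Fin s → ℕ) (a : Fin k → ℤ) (L : Fin k → Fin s → Fin r → ℤ)
    (l : ∀ g, Fin (t g) → Fin r → ℤ) (c : ∀ g, Fin (t g) → ℤ),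
    (∀ i, a i ≠ 0) → (∀ g, 0 < t g) → (∀ g j, l g j ≠ 0) → (∀ g, NonProp (l g) (c g)) →
    ∀ S : Set ℂ, S.Finite → ∀ δ ε : ℝ, 0 < δ → 0 < ε →
    (∀ (lg : Finset (Fin s)) (i₀ : Fin k),
      ∃ Q : ℕ, ∀ η : ℝ, 0 < η → ∃ U M : ℝ, ∀ T : ℕ, ∃ K : ℕ, ∀ (D : Fin s → ℕ) (x : ℕ),
        K ≤ x → (∀ g, K ≤ D g) → (∀ g, D g ≤ R * x) → (∀ g ∈ lg, x ≤ R * D g) →
        ∀ f : Fin k → ℕ → ℂ, (∀ i, IsMult (f i)) →
        ε * (x * ∏ g, (D g : ℝ) ^ r) < weighted t l c δ D (corr a L f x) →
        ∃ (q : ℕ) (χ : DirichletCharacter ℂ q) (v : ℝ), 1 ≤ q ∧ q ≤ Q ∧ |v| ≤ U ∧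
          farMass (fun p => ∏ i ∈ cluster a L lg i₀, f i p) χ v η T ≤ M ∧
          ((∀ p : ℕ, p.Prime → ∏ i ∈ cluster a L lg i₀, f i p ∈ S) →
            v = 0 ∧ distSq (fun p => ∏ i ∈ cluster a L lg i₀, f i p) χ T ≤ M)) ∧
    (∃ Q : ℕ, ∀ η : ℝ, 0 < η → ∃ U M : ℝ, ∀ T : ℕ, ∃ K : ℕ, ∀ (D : Fin s → ℕ) (x : ℕ),
        K ≤ x → (∀ g, K ≤ D g) → (∀ g, D g ≤ R * x) →
        ∀ f : Fin k → ℕ → ℂ, (∀ i, IsMult (f i)) → ∀ γ : ℝ,
        ε * (x * ∏ g, (D g : ℝ) ^ r) < weighted t l c δ D (twisted a L f γ x) →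
        (∃ q : ℕ, 1 ≤ q ∧ q ≤ Q ∧ |(q : ℝ) * γ - round ((q : ℝ) * γ)| ≤ (Q : ℝ) / x) ∧
        ∃ (q : ℕ) (χ : DirichletCharacter ℂ q) (v : ℝ), 1 ≤ q ∧ q ≤ Q ∧ |v| ≤ U ∧
          farMass (fun p => ∏ i, f i p) χ v η T ≤ M ∧
          ((∀ p : ℕ, p.Prime → ∏ i, f i p ∈ S) →
            v = 0 ∧ distSq (fun p => ∏ i, f i p) χ T ≤ M)) := by
  intro k s r R t a L l c ha _ hl hNP S hS δ ε hδ hε
  refine ⟨fun lg i₀ => ?_, ?_⟩
  · obtain ⟨Q, hQ⟩ := Pool.Agent.N788.QP.clusters_w t a (Pool.Agent.N788.QP.fl L) l c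
      Pool.Agent.N675.Q.blk_all ha hl hNP (lgb lg) i₀ S hS R δ ε hδ hε
    refine ⟨Q, fun η hη => ?_⟩
    obtain ⟨U, M, hUM⟩ := hQ η hη
    refine ⟨U, M, fun T => ?_⟩
    obtain ⟨K, hK⟩ := hUM T
    refine ⟨K + 1, fun D x hx hD hDx hlg f hf hbig => ?_⟩
    have hx0 : (0 : ℝ) < x := by exact_mod_cast (by omega : 0 < x)
    have h := hK D x (fun g => by have := hD g; omega) (by omega) hDx
      (fun g hg => hlg g (by simpa [lgb] using hg)) f hf (by
      have h1 := Pool.Agent.N788.QP.ws_sum t l c δ D x (corr a L f x)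
        (fun y => Pool.Agent.N675.M.cc a (Pool.Agent.N788.QP.fl L) (fun i m => f i m.natAbs) x
          (fun q => y q.1 q.2))
        (Pool.Agent.N788.QP.cc_sum a L (fun i m => f i m.natAbs) x (by omega))
      have h2 : weighted t l c δ D (corr a L f x) = x * Pool.Agent.N788.QP.ws t l c δ D
        (fun y => Pool.Agent.N675.M.cc a (Pool.Agent.N788.QP.fl L) (fun i m => f i m.natAbs) x
          (fun q => y q.1 q.2)) := h1
      rw [h2] at hbig
      have h3 : (x : ℝ) * (ε * ∏ g, (D g : ℝ) ^ r) < x * Pool.Agent.N788.QP.ws t l c δ D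
        (fun y => Pool.Agent.N675.M.cc a (Pool.Agent.N788.QP.fl L) (fun i m => f i m.natAbs) x
          (fun q => y q.1 q.2)) := by linarith
      exact lt_of_mul_lt_mul_left h3 hx0.le)
    rw [cls_eq] at h
    exact h
  · obtain ⟨Q, hQ⟩ := Pool.Agent.N788.QP.twists_w t a (Pool.Agent.N788.QP.fl L) l c
      Pool.Agent.N675.Q.blk_all ha hl hNP S hS R δ ε hδ hε
    refine ⟨Q, fun η hη => ?_⟩
    obtain ⟨U, M, hUM⟩ := hQ η hη
    refine ⟨U, M, fun T => ?_⟩
    obtain ⟨K, hK⟩ := hUM T
    refine ⟨K + 1, fun D x hx hD hDx f hf γ hbig => ?_⟩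
    have hx0 : (0 : ℝ) < x := by exact_mod_cast (by omega : 0 < x)
    refine hK D x (fun g => by have := hD g; omega) (by omega) hDx f hf γ ?_
    have h1 := Pool.Agent.N788.QP.ws_sum t l c δ D x (twisted a L f γ x)
      (fun y => Pool.Agent.N675.M.ccg a (Pool.Agent.N788.QP.fl L) (fun i m => f i m.natAbs) γ x
        (fun q => y q.1 q.2))
      (Pool.Agent.N788.QP.ccg_sum a L (fun i m => f i m.natAbs) γ x (by omega))
    have h2 : weighted t l c δ D (twisted a L f γ x) = x * Pool.Agent.N788.QP.ws t l c δ D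
      (fun y => Pool.Agent.N675.M.ccg a (Pool.Agent.N788.QP.fl L) (fun i m => f i m.natAbs) γ x
        (fun q => y q.1 q.2)) := h1
    rw [h2] at hbig
    have h3 : (x : ℝ) * (ε * ∏ g, (D g : ℝ) ^ r) < x * Pool.Agent.N788.QP.ws t l c δ D
      (fun y => Pool.Agent.N675.M.ccg a (Pool.Agent.N788.QP.fl L) (fun i m => f i m.natAbs) γ x
        (fun q => y q.1 q.2)) := by linarith
    exact lt_of_mul_lt_mul_left h3 hx0.le

end Pool.Agent.Results.MP_f3f922_nt.InversePrimeTuples
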