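import Mathlib
import Pool.Agent.N781.FV.Fin

/-!
# An inverse theorem for correlations of multiplicative functions in boxes, uniform in the functions

If the average of `f_1(ψ_1(y)) ⋯ f_k(ψ_k(y))` over a box, possibly twisted by an additive character,
is not small, then the additive character is a major arc one and the product `f_1 ⋯ f_k` is close to
a twisted Dirichlet character of bounded modulus at all primes but a set of bounded mass.
-/

open Finset

namespace Pool.Agent.Results.MP_f3f922_nt.InverseTheoremAllBoxes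

/-- Multiplicative functions with values in the closed unit disc. -/
def IsMult (f : ℕ → ℂ) : Prop :=
  (∀ n, ‖f n‖ ≤ 1) ∧ ∀ m n : ℕ, m.Coprime n → f (m * n) = f m * f n

/-- The sum over the box `1 ≤ y s ≤ B s` of `e(θ · y) ∏ i, f i |ψ i (y)|`. -/
noncomputable def boxSum {n k : ℕ} (ψ : Fin k → Fin n → ℤ) (f : Fin k → ℕ → ℂ) (B : Fin n → ℕ)
    (θ : Fin n → ℝ) : ℂ :=
  ∑ y ∈ Fintype.piFinset (fun s => Finset.Icc (1 : ℤ) (B s)),
    Complex.exp (2 * Real.pi * Complex.I * ((∑ s, θ s * y s : ℝ) : ℂ)) *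
      ∏ i, f i (∑ s, ψ i s * y s).natAbs

open Classical in
/-- The sum of `1 / p` over the primes `p ≤ T` with `|g(p) - χ(p) p ^ (i v)| > η`. -/
noncomputable def farMass {q : ℕ} (g : ℕ → ℂ) (χ : DirichletCharacter ℂ q) (v η : ℝ) (T : ℕ) : ℝ :=
  ∑ p ∈ (Finset.Icc 1 T).filter (fun p : ℕ => p.Prime ∧
    η < ‖g p - χ (p : ZMod q) * (p : ℂ) ^ (Complex.I * (v : ℂ))‖), 1 / (p : ℝ)

/-- The square of the pretentious distance `𝔻(g, χ; T)`. -/
noncomputable def distSq {q : ℕ} (g : ℕ → ℂ) (χ : DirichletCharacter ℂ q) (T : ℕ) : ℝ :=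
  ∑ p ∈ (Finset.Icc 1 T).filter Nat.Prime,
    (1 - (g p * (starRingEnd ℂ) (χ (p : ZMod q))).re) / (p : ℝ)

/-- Let `ψ` be `k` nonzero integer linear forms in `n` variables, `ε > 0`, and let `S` be a finite set
of complex numbers. If the normalized sum over a box with sides at least `K` is larger than `ε`, then
every `θ s` is close to a rational number with denominator `q ≤ Q`, and the product `g = f 1 ⋯ f k`
is within `η` of `χ(p) p ^ (i v)`, `χ` modulo `q`, `|v| ≤ U`, at all the primes `p ≤ T` outside a set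
of mass at most `M`; moreover `v = 0` and `𝔻(g, χ; T) ^ 2 ≤ M` if the values of `g` at the primes lie
in `S`. Here `Q` depends on `ψ, S, ε`, and `U, M` depend on `η` too, and `K` depends on `T` too. -/
theorem result : ∀ (n k : ℕ) (ψ : Fin k → Fin n → ℤ), (∀ i, ψ i ≠ 0) →
    ∀ S : Set ℂ, S.Finite → ∀ ε : ℝ, 0 < ε →
    ∃ Q : ℕ, ∀ η : ℝ, 0 < η → ∃ U M : ℝ, ∀ T : ℕ, ∃ K : ℕ,
      ∀ f : Fin k → ℕ → ℂ, (∀ i, IsMult (f i)) →
      ∀ B : Fin n → ℕ, (∀ s, K ≤ B s) → ∀ θ : Fin n → ℝ,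
      ε * ∏ s, (B s : ℝ) < ‖boxSum ψ f B θ‖ →
      ∃ (q : ℕ) (χ : DirichletCharacter ℂ q) (v : ℝ), 1 ≤ q ∧ q ≤ Q ∧ |v| ≤ U ∧
        (∀ s, ∃ a : ℤ, |(q : ℝ) * θ s - a| ≤ Q / B s) ∧
        farMass (fun p => ∏ i, f i p) χ v η T ≤ M ∧
        ((∀ p : ℕ, p.Prime → ∏ i, f i p ∈ S) →
          v = 0 ∧ distSq (fun p => ∏ i, f i p) χ T ≤ M) := by
  intro n k ψ hψ S hS ε hε
  exact Pool.Agent.N781.FV.final_inverse_all ψ hψ S hS ε hε

end Pool.Agent.Results.MP_f3f922_nt.InverseTheoremAllBoxes
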