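import Mathlib
import Pool.Agent.N788.Sys.GenC

/-!
# An inverse theorem for correlations of multiplicative functions with several short and long
parameters, uniform in the functions

If the correlations `∑_{n ≤ x} ∏ f_i(|a_i n + L_i(d)|)` are not small for most vectors `d` of a box,
then for every cluster of forms (forms proportional in `n` and the long parameters) the product of the
functions of the cluster is close to a twisted Dirichlet character of bounded modulus at all primes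
but a set of bounded mass. With an additive twist the same holds for the product of all functions,
and the twist lies in a major arc.

From the team: the cluster theorem and the theorem on additive twists (`Pool.Agent.N675.M`, project M
of helper675), the treatment of products with finitely many values (`Pool.Agent.N781.FV`, helper781).
From Mathlib: `Fintype.piFinset S`: the vectors `d` with `d j ∈ S j` for all `j`; `m.natAbs`: the
absolute value of the integer `m`.
-/

open Finset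

namespace Pool.Agent.Results.MP_f3f922_nt.InverseTheoremClusters

/-- Multiplicative functions with values in the closed unit disc. -/
def IsMult (f : ℕ → ℂ) : Prop :=
  (∀ n, ‖f n‖ ≤ 1) ∧ ∀ m n : ℕ, m.Coprime n → f (m * n) = f m * f n

/-- The correlation sum `∑_{n ≤ x} ∏ i, f i |a i n + ∑ j, L i j d j|`. -/
noncomputable def corr {k r : ℕ} (a : Fin k → ℤ) (L : Fin k → Fin r → ℤ) (f : Fin k → ℕ → ℂ)
    (x : ℕ) (d : Fin r → ℤ) : ℂ :=
  ∑ n ∈ Icc (1 : ℤ) x, ∏ i, f i (a i * n + ∑ j, L i j * d j).natAbs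

/-- The correlation sum with the additional factor `exp (2 π i γ n)`. -/
noncomputable def twisted {k r : ℕ} (a : Fin k → ℤ) (L : Fin k → Fin r → ℤ) (f : Fin k → ℕ → ℂ)
    (γ : ℝ) (x : ℕ) (d : Fin r → ℤ) : ℂ :=
  ∑ n ∈ Icc (1 : ℤ) x, Complex.exp (Complex.I * ((2 * Real.pi * (γ * n) : ℝ) : ℂ)) *
    ∏ i, f i (a i * n + ∑ j, L i j * d j).natAbs

/-- The cluster of the form `i₀` among the forms `a i n + ∑ t, L i t d t`: the forms whose vector of
coefficients at `n` and at the long parameters `d t`, `t ∈ lg`, is proportional to the one of the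
form `i₀`. Without long parameters it consists of all forms. -/
def cluster {k r : ℕ} (a : Fin k → ℤ) (L : Fin k → Fin r → ℤ) (lg : Finset (Fin r))
    (i₀ : Fin k) : Finset (Fin k) :=
  univ.filter fun i => ∀ t ∈ lg, a i * L i₀ t = a i₀ * L i t

open Classical in
/-- The sum of `1 / p` over the primes `p ≤ T` with `|g(p) - χ(p) p ^ (i v)| > η`. -/
noncomputable def farMass {q : ℕ} (g : ℕ → ℂ) (χ : DirichletCharacter ℂ q) (v η : ℝ) (T : ℕ) : ℝ :=
  ∑ p ∈ (Finset.Icc 1 T).filter (fun p : ℕ => p.Prime ∧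
    η < ‖g p - χ (p : ZMod q) * (p : ℂ) ^ (Complex.I * (v : ℂ))‖), 1 / (p : ℝ)

/-- The square of the pretentious distance `𝔻(g, χ; T)`. -/
noncomputable def distSq {q : ℕ} (g : ℕ → ℂ) (χ : DirichletCharacter ℂ q) (T : ℕ) : ℝ :=
  ∑ p ∈ (Finset.Icc 1 T).filter Nat.Prime,
    (1 - (g p * (starRingEnd ℂ) (χ (p : ZMod q))).re) / (p : ℝ)

/-- long parameters as a boolean function -/
def lgb {r : ℕ} (lg : Finset (Fin r)) (t : Fin r) : Bool := decide (t ∈ lg)

lemma cls_eq {k r : ℕ} (a : Fin k → ℤ) (L : Fin k → Fin r → ℤ) (lg : Finset (Fin r))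
    (i₀ : Fin k) : Pool.Agent.N675.M.cls a L (lgb lg) i₀ = cluster a L lg i₀ := by
  ext i
  rw [Pool.Agent.N675.M.mem_cls]
  unfold cluster
  rw [Finset.mem_filter]
  simp [lgb]

/-- Let `a i n + L i (d)` be integer linear forms in `n` and `r` parameters, `a i ≠ 0`, let `S` be a
finite set of complex numbers and `ε > 0`. Let `x ≥ K` and `K ≤ D j ≤ R x` for all `j`.
(1) Let `lg` be a set of parameters, called long, with `x ≤ R (D j)` for `j ∈ lg`. If the sum over the
box `1 ≤ d j ≤ D j` of the absolute values of the correlation sums is larger than `ε x ∏ D j`, then,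
for the cluster of every form `i₀`, the product `g` of the functions of the cluster is within `η` of
`χ(p) p ^ (i v)`, `χ` modulo `q ≤ Q`, `|v| ≤ U`, at all the primes `p ≤ T` outside a set of mass at
most `M`; moreover `v = 0` and `𝔻(g, χ; T) ^ 2 ≤ M` if the values of `g` at the primes lie in `S`.
(2) If this sum is larger than `ε x ∏ D j` for the correlation sums twisted by `exp (2 π i γ n)`, then
`q' γ` is within `Q / x` of an integer for some `1 ≤ q' ≤ Q`, and the conclusion of (1) holds for the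
product of all the functions. -/
theorem result : ∀ (k r R : ℕ) (a : Fin k → ℤ) (L : Fin k → Fin r → ℤ), (∀ i, a i ≠ 0) →
    ∀ S : Set ℂ, S.Finite → ∀ ε : ℝ, 0 < ε →
    (∀ (lg : Finset (Fin r)) (i₀ : Fin k),
      ∃ Q : ℕ, ∀ η : ℝ, 0 < η → ∃ U M : ℝ, ∀ T : ℕ, ∃ K : ℕ, ∀ (D : Fin r → ℕ) (x : ℕ),
        K ≤ x → (∀ j, K ≤ D j) → (∀ j, D j ≤ R * x) → (∀ j ∈ lg, x ≤ R * D j) →
        ∀ f : Fin k → ℕ → ℂ, (∀ i, IsMult (f i)) →
        ε * (x * ∏ j, (D j : ℝ)) <
          ∑ d ∈ Fintype.piFinset (fun j => Icc (1 : ℤ) (D j)), ‖corr a L f x d‖ →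
        ∃ (q : ℕ) (χ : DirichletCharacter ℂ q) (v : ℝ), 1 ≤ q ∧ q ≤ Q ∧ |v| ≤ U ∧
          farMass (fun p => ∏ i ∈ cluster a L lg i₀, f i p) χ v η T ≤ M ∧
          ((∀ p : ℕ, p.Prime → ∏ i ∈ cluster a L lg i₀, f i p ∈ S) →
            v = 0 ∧ distSq (fun p => ∏ i ∈ cluster a L lg i₀, f i p) χ T ≤ M)) ∧
    (∃ Q : ℕ, ∀ η : ℝ, 0 < η → ∃ U M : ℝ, ∀ T : ℕ, ∃ K : ℕ, ∀ (D : Fin r → ℕ) (x : ℕ),
        K ≤ x → (∀ j, K ≤ D j) → (∀ j, D j ≤ R * x) →
        ∀ f : Fin k → ℕ → ℂ, (∀ i, IsMult (f i)) → ∀ γ : ℝ,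
        ε * (x * ∏ j, (D j : ℝ)) <
          ∑ d ∈ Fintype.piFinset (fun j => Icc (1 : ℤ) (D j)), ‖twisted a L f γ x d‖ →
        (∃ q : ℕ, 1 ≤ q ∧ q ≤ Q ∧ |(q : ℝ) * γ - round ((q : ℝ) * γ)| ≤ (Q : ℝ) / x) ∧
        ∃ (q : ℕ) (χ : DirichletCharacter ℂ q) (v : ℝ), 1 ≤ q ∧ q ≤ Q ∧ |v| ≤ U ∧
          farMass (fun p => ∏ i, f i p) χ v η T ≤ M ∧
          ((∀ p : ℕ, p.Prime → ∏ i, f i p ∈ S) →
            v = 0 ∧ distSq (fun p => ∏ i, f i p) χ T ≤ M)) := by
  intro k r R a L ha S hS ε hε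
  refine ⟨fun lg i₀ => ?_, ?_⟩
  · obtain ⟨Q, hQ⟩ := Pool.Agent.N788.Sys.clusters_uniform a L ha (lgb lg) i₀ S hS R ε hε
    refine ⟨Q, fun η hη => ?_⟩
    obtain ⟨U, M, hUM⟩ := hQ η hη
    refine ⟨U, M, fun T => ?_⟩
    obtain ⟨K, hK⟩ := hUM T
    refine ⟨K, fun D x hx hD hDx hlg f hf hbig => ?_⟩
    have h := hK D x hD hx hDx (fun j hj => hlg j (by simpa [lgb] using hj)) f hf hbig
    rw [cls_eq] at h
    exact h
  · obtain ⟨Q, hQ⟩ := Pool.Agent.N788.Sys.twists_uniform a L ha S hS R ε hε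
    refine ⟨Q, fun η hη => ?_⟩
    obtain ⟨U, M, hUM⟩ := hQ η hη
    refine ⟨U, M, fun T => ?_⟩
    obtain ⟨K, hK⟩ := hUM T
    exact ⟨K, fun D x hx hD hDx f hf γ hbig => hK D x hD hx hDx f hf γ hbig⟩

end Pool.Agent.Results.MP_f3f922_nt.InverseTheoremClusters
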